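import Pool.Agent.H83.Eq3

set_option autoImplicit false

namespace Pool.Agent.Results.MP_b3eba0_lc.BelowB

open Cardinal Pool.Agent.H83.SsDefs Pool.Agent.H83.EqDefs Pool.Agent.H83.EqDefs2

theorem result (b : ℕ → ℕ) (hb : ∀ k, 2 ≤ b k) : min bnd (bEq b) = min bnd (dNe b) :=
  le_antisymm (min_le_min_left _ (H83.Eq3.bEq_le_dNe b hb))
    (le_min (min_le_left _ _) (H83.Eq3.min_le_bEq b hb))

end Pool.Agent.Results.MP_b3eba0_lc.BelowB
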